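import Mathlib
import Pool.Agent.KDT.StmtsK
import Pool.Agent.Helper95_SZT.LIF

/-! # KDT, row PLI: local bounds at the infinite places -/

set_option autoImplicit false

namespace Pool.Agent.KDT.H51

open Polynomial NumberField H58Q Pool.Agent.SZT
open Pool.Agent.MNT (QU vC)

theorem pli_qu : QU vC (Real.log 2) := by
  refine ⟨Real.log_nonneg (by norm_num), ?_⟩
  intro a b
  rw [Real.exp_log (by norm_num)]
  have h1 : vC (a + b) ≤ vC a + vC b := vC.add_le a b
  have h2 := le_max_left (vC a) (vC b)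
  have h3 := le_max_right (vC a) (vC b)
  linarith

theorem pli_kum {K E : Type} [Field K] [Field E] (φ : K →+* E) (f A B : K[X]) :
    (fun l => φ (kum f A B l)) = kum (f.map φ) (A.map φ) (B.map φ) := by
  funext l
  fin_cases l <;> simp [kum, coeff_map]

theorem pli (lfa : LfaStatement) (gmp : GmpStatement) (aot : AOutStatement)
    (dsr : DsrStatement) : PliStatement := by
  obtain ⟨c2, ci₀, -, hci, -, hC⟩ := aot
  refine ⟨ci₀ + Real.log 2, add_nonneg hci (Real.log_nonneg (by norm_num)), ?_⟩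
  intro K _ _ v f hf h5 hs
  obtain ⟨θ, hθ⟩ := Pool.Agent.SZT.H69.exists_theta (hf.map v.embedding)
    (by rw [hf.natDegree_map, h5])
  have hinj : Function.Injective θ := by
    rw [← separable_prod_X_sub_C_iff, ← hθ]
    exact (PerfectField.separable_iff_squarefree.2 hs).map
  have h1 : ‖dsc θ‖ = v (discr f) := by
    rw [← InfinitePlace.norm_embedding_eq, ← Pool.Agent.SZT.H69.discr_map_five _ hf h5, hθ]
    rcases dsr ℂ θ with h | h <;> rw [h]
    rw [norm_neg]
  have h2 : rho (fun z : ℂ => ‖z‖) θ = spr (f.map v.embedding) := by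
    rw [hθ]
    exact Pool.Agent.SZT.H95.rho_eq_spr
  obtain ⟨ρ, hρ⟩ : ∃ ρ : ℝ, ρ = spr (f.map v.embedding) := ⟨_, rfl⟩
  have hρ' : ρ = ⨆ p : Fin 5 × Fin 5, ‖θ p.1 - θ p.2‖ := by
    rw [hρ, ← h2]
    rfl
  have hle : ∀ k l, ‖θ k - θ l‖ ≤ ρ := by
    intro k l
    rw [hρ']
    exact le_ciSup (f := fun p : Fin 5 × Fin 5 => ‖θ p.1 - θ p.2‖) (Set.finite_range _).bddAbove
      (k, l)
  have hpos : 0 < ρ := by
    refine lt_of_lt_of_le ?_ (hle 0 1)
    rw [norm_pos_iff, sub_ne_zero]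
    exact fun h => absurd (hinj h) (by decide)
  obtain ⟨⟨k, l⟩, hkl⟩ := exists_eq_ciSup_of_finite (f := fun p : Fin 5 × Fin 5 => ‖θ p.1 - θ p.2‖)
  rw [← hρ'] at hkl
  have hkl' : ‖θ k - θ l‖ = ρ := hkl
  have hne : k ≠ l := by
    rintro rfl
    rw [sub_self, norm_zero] at hkl'
    exact hpos.ne hkl'
  refine ⟨adc (∏ i, (X - C (θ i))) (θ k) (θ l), ?_⟩
  intro A B U W M hvg hgen κ e he
  obtain ⟨-, g2, g3, -, g5⟩ := gmp K ℂ v.embedding f A B U W M hf
  have hgood : Good (∏ i, (X - C (θ i))) (A.map v.embedding) (B.map v.embedding) := by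
    rw [← hθ]
    exact g2 hvg.1
  have hgen' : Gen (∏ i, (X - C (θ i))) (A.map v.embedding) (B.map v.embedding)
      (U.map v.embedding) (W.map v.embedding) M := by
    rw [← hθ]
    exact g3 hgen
  have hroot : ∀ k, (f.map v.embedding).IsRoot (θ k) := by
    intro k
    rw [hθ, IsRoot.def, eval_prod, Finset.prod_eq_zero_iff]
    exact ⟨k, Finset.mem_univ _, by simp⟩
  have htau : ∀ k l, k ≠ l → tau (∏ i, (X - C (θ i))) (θ k) (θ l)
      (kum (∏ i, (X - C (θ i))) (A.map v.embedding) (B.map v.embedding)) ≠ 0 := by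
    intro k l hkl
    rw [← hθ]
    exact g5 hvg (θ k) (θ l) (hroot k) (hroot l) (fun h => hkl (hinj h))
  have hD : ∀ (A B U W : ℂ[X]) (M : ℕ), Good (∏ i, (X - C (θ i))) A B →
      Gen (∏ i, (X - C (θ i))) A B U W M →
      (1 / 2) * Real.log ‖dsc θ‖ - 7 * Real.log ρ - ci₀ ≤
        Lv vC (∏ i, (X - C (θ i))) A U M := by
    intro A B U W M hG hg
    have h := hC θ A U W M hinj hG.monic hG.two hg.cop hg.pos hg.even hg.pell
    rw [h2, ← hρ] at h
    exact h
  have h := lfa ℂ vC (Real.log 2) _ ρ θ k l pli_qu two_ne_zero hinj hne hle hkl' hD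
    (A.map v.embedding) (B.map v.embedding) (U.map v.embedding) (W.map v.embedding) M hgood htau
    hgen' κ e he
  have h3 : Lv vC (∏ i, (X - C (θ i))) (A.map v.embedding) (U.map v.embedding) M =
      Lv v f A U M := by
    rw [← hθ]
    change Lv (fun z : ℂ => ‖z‖) _ _ _ _ = _
    unfold Lv
    have e1 : (4 * f.map v.embedding : ℂ[X]) = (4 * f).map v.embedding := by
      rw [Polynomial.map_mul, Polynomial.map_ofNat]
    have e2 : (2 * U.map v.embedding : ℂ[X]) = (2 * U).map v.embedding := by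
      rw [Polynomial.map_mul, Polynomial.map_ofNat]
    rw [e1, e2, Pool.Agent.SZT.H95.res_map, Pool.Agent.SZT.H95.res_map]
    simp only [InfinitePlace.norm_embedding_eq]
  rw [h3, h1] at h
  have h4 : kum (∏ i, (X - C (θ i))) (A.map v.embedding) (B.map v.embedding) =
      fun l => v.embedding (kum f A B l) := by
    rw [pli_kum, hθ]
  rw [h4] at h
  refine le_trans (le_of_eq_of_le rfl h) (le_of_eq ?_)
  have h6 : ρ ^ wt e = Real.exp (wt e * Real.log ρ) := by
    rw [Real.exp_nat_mul, Real.exp_log hpos]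
  rw [h6, ← Real.exp_add, ← Real.exp_add, ← hρ]
  congr 1
  ring

end Pool.Agent.KDT.H51
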